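import Pool.Agent.Work.MP_1ddc88_an.TL.FinB

/-!
# MP_1ddc88_an: the boundary assembly map of (telescope of an expander tower) x (ray) is not injective

`Z = T × ℕ`, `T` the telescope of a tower of expander graphs, with the metric `dT T`.  `C*(Z)` is the Roe
algebra (`S.Roe`), `S.Ghost` its ideal of ghost operators, `C*(Z)/Ghost` the reduced crossed product
`A_∂ ⋊_r G(Z)|_∂βZ`.  The class of `v k`, the `k`-th power of the unilateral shift along the ray
`{x₀} × ℕ`, is not zero in `K_1(C*(Z)/K)` for `k ≠ 0`, but it is zero in `K_1(C*(Z)/Ghost)`.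
All definitions are in `Exp.lean`, `SDefs.lean` and `TL/Tow.lean`.
-/

set_option autoImplicit false

open Filter Topology
open Pool.Agent.Work.MP_1ddc88_an
open Pool.Agent.Work.MP_1ddc88_an.TL

namespace Pool.Agent.Results.MP_1ddc88_an.NotInjective

/-- The `k`-th power of the unilateral shift along the ray `{x₀} × ℕ` (`x₀` the only point of the graph
`G 0`; the `|k|`-th power of its adjoint for `k < 0`), tensored with `q`, and the identity elsewhere:
`u a` for `a = (k, 0, 0, ...)`. -/
noncomputable def v (T : Tower) (k : ℤ) : S.Op (Z T.X) := S.u T.X (fun i => if i = 0 then k else 0)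

theorem result :
    Nonempty Tower ∧ ∀ T : Tower,
      -- `Z = T × ℕ` is a metric space of bounded geometry, `C*(Z)` an algebra, the ghosts are an
      -- ideal which contains the compact operators
      (tele T).Connected ∧ S.BddGeo (dT T) ∧ S.Ideals (dT T) ∧
      -- the operators `P ⊗ 1 ⊗ q` and `S_a` exist
      (S.IsMat (S.kP T.X) (S.matOp (S.kP T.X)) ∧
        ∀ a, S.IsMat (S.kS T.X a) (S.matOp (S.kS T.X a))) ∧
      ∀ k : ℤ,
        -- the class of `v k` in `K_1(C*(Z)/Ghost)` is zero
        S.Homot (dT T) (S.Ghost (dT T)) (S.stab 3 (v T k)) 1 ∧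
        -- the class of `v k` in `K_1(C*(Z)/K)` is not zero for `k ≠ 0`
        (k ≠ 0 → ∀ n : ℕ, S.InvMod (dT T) (S.Cpt (Z T.X)) (S.stab n (v T k)) ∧
          ¬ S.Homot (dT T) (S.Cpt (Z T.X)) (S.stab n (v T k)) 1) :=
  ⟨all_XTow, fun T => ⟨(pr_TMet T).1, finT_bddGeo T, finT_ideals T,
    ⟨isMat_matOp (pr_PavF T.X).1, fun a => isMat_matOp (pr_ShF T.X a).1⟩,
    fun k => ⟨finT_kill T k, fun hk n => ⟨finT_inv T n k hk, finT_index T n k hk⟩⟩⟩⟩

end Pool.Agent.Results.MP_1ddc88_an.NotInjective
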