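import Pool.Agent.Work.MP_1ddc88_an.FinA

/-!
# MP_1ddc88_an: the boundary assembly map of (expander) x (ray) is not surjective

`Z = X × ℕ`, `X` the coarse disjoint union of an expander, with the metric `dZ X`.  `C*(Z)` is the Roe
algebra (`S.Roe`), `S.Ghost` its ideal of ghost operators, `C*(Z)/Ghost` the reduced crossed product
`A_∂ ⋊_r G(Z)|_∂βZ`.  The map `K_1(C*(Z)/K) → K_1(C*(Z)/Ghost)`, through which the boundary assembly map
factors, is not surjective: the class of `u a`, `a : ℕ → ℤ` bounded, is in its image if and only if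
`a` is eventually zero.  All definitions are in `Exp.lean` and `SDefs.lean`.
-/

set_option autoImplicit false

open Filter Topology
open Pool.Agent.Work.MP_1ddc88_an

namespace Pool.Agent.Results.MP_1ddc88_an.NotSurjective

/-- The class of `T` in `K_1(C*(Y)/Ghost)` is in the image of `K_1(C*(Y)/K)`: some matrix over
`C*(Y) + ℂ`, invertible modulo the compact operators, is joined to `diag(T, 1, ..., 1)` by a norm
continuous path of matrices over `C*(Y) + ℂ` which are invertible modulo the ghost operators. -/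
def Lifts {Y : Type} (d : Y → Y → ℕ) (T : S.Op Y) : Prop :=
  ∃ (n : ℕ) (x : S.Mat Y (n + 1)), S.InvMod d (S.Cpt Y) x ∧ S.Homot d (S.Ghost d) x (S.stab n T)

/-- Bounded sequences of integers. -/
def Bdd (a : ℕ → ℤ) : Prop := ∃ C : ℕ, ∀ i, |a i| ≤ (C : ℤ)

theorem result :
    Nonempty Expander ∧ ∀ X : Expander,
      -- `Z = X × ℕ` is a metric space of bounded geometry, `C*(Z)` an algebra, the ghosts are an
      -- ideal which contains the compact operators
      S.BddGeo (dZ X) ∧ S.Ideals (dZ X) ∧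
      -- the operators `P ⊗ 1 ⊗ q` and `S_a` exist
      (S.IsMat (S.kP X) (S.matOp (S.kP X)) ∧ ∀ a, S.IsMat (S.kS X a) (S.matOp (S.kS X a))) ∧
      -- `a ↦ [u a]` is a homomorphism from the bounded sequences to `K_1(C*(Z)/Ghost)`
      (S.u X (fun _ => 0) = 1 ∧ ∀ a b : ℕ → ℤ, Bdd a → Bdd b → S.u X a ∈ S.RoePlus (dZ X) ∧
        S.u X a * S.u X b - S.u X (fun i => a i + b i) ∈ S.Ghost (dZ X)) ∧
      -- the classes which come from `K_1(C*(Z)/K)`
      ∀ a : ℕ → ℤ, Bdd a → (Lifts (dZ X) (S.u X a) ↔ ∀ᶠ i in atTop, a i = 0) := by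
  refine ⟨all_EExp, fun X => ⟨fin_bddGeo X, fin_ideals X,
    ⟨isMat_matOp (pr_PavF X).1, fun a => isMat_matOp (pr_ShF X a).1⟩, ⟨fin_u0 X, ?_⟩, ?_⟩⟩
  · rintro a b ⟨C, hC⟩ ⟨C', hC'⟩
    refine fin_u X a b (max C C') (fun i => (hC i).trans ?_) (fun i => (hC' i).trans ?_)
    · exact_mod_cast le_max_left C C'
    · exact_mod_cast le_max_right C C'
  · rintro a ⟨C, hC⟩
    constructor
    · intro h
      by_contra hne
      exact fin_not X a hne h
    · intro h
      exact fin_yes X a C hC h

end Pool.Agent.Results.MP_1ddc88_an.NotSurjective
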