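import Pool.Agent.Work.MP_1ddc88_an.GR.FinG

/-!
# MP_1ddc88_an: the boundary assembly map is not injective for a space of graphs

`Y = Yt T` is the coarse disjoint union of the finite connected graphs `T_0, T_1, ...`, where `T_n` is the
part of the levels `0, ..., n + 1` of the telescope of a tower of expander graphs, with the metric
`dY T`.  `C*(Y)` is the Roe algebra (`S.Roe`), `S.Ghost` its ideal of ghost operators, `C*(Y)/Ghost` the
reduced crossed product `A_∂ ⋊_r G(Y)|_∂βY`.  For a function `a : ℕ → ℕ` the operator `e a` is the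
(diagonal) projection onto the span of the `δ_r ⊗ δ_j`, `r` the root of `T_n`, `j < a n`.  All classes
`[e a]` are zero in `K_0(C*(Y)/Ghost)`, but in `K_0(C*(Y)/K)` `[e a] = [e b]` only if `a n = b n` for all
large `n`.  All definitions are in `Exp.lean`, `SDefs.lean`, `TL/Tow.lean` and `GR/Gr.lean`.
-/

set_option autoImplicit false

open Filter
open Pool.Agent.Work.MP_1ddc88_an
open Pool.Agent.Work.MP_1ddc88_an.TL
open Pool.Agent.Work.MP_1ddc88_an.GR
open scoped Classical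

namespace Pool.Agent.Results.MP_1ddc88_an.SpacesOfGraphs

/-- The projection onto the span of the vectors `δ_r ⊗ δ_j`, `r` the root of `T_n`, `j < a n`. -/
noncomputable def e (T : Tower) (a : ℕ → ℕ) : S.Op (Yt T) :=
  S.proj {p | ∃ n j, j < a n ∧ p = (root T n, j)}

/-- `[p] = [q]` in `K_0(C*(Y)/I)`: for some `n` there are matrices `x`, `y` over `C*(Y) + ℂ` with
`x y = diag(p, 1, ..., 1)` and `y x = diag(q, 1, ..., 1)` modulo `I` (matrices of size `n + 1`). -/
def EqK0 {Y : Type} (d : Y → Y → ℕ) (I : Set (S.Op Y)) (p q : S.Op Y) : Prop :=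
  ∃ (n : ℕ) (x y : S.Mat Y (n + 1)),
    (∀ i j, x i j ∈ S.RoePlus d) ∧ (∀ i j, y i j ∈ S.RoePlus d) ∧
    (∀ i j, (x * y - S.stab n p) i j ∈ I) ∧ (∀ i j, (y * x - S.stab n q) i j ∈ I)

theorem eqK0_iff {Y : Type} (d : Y → Y → ℕ) (I : Set (OpY Y)) (p q : OpY Y) :
    EqK0 d I p q ↔ EqK d I p q := by
  show (∃ (n : ℕ) (x y : MatY Y (n + 1)),
    (∀ a b, x a b ∈ (S.RoePlus d : Set (OpY Y))) ∧ (∀ a b, y a b ∈ (S.RoePlus d : Set (OpY Y))) ∧
    (∀ a b, (x * y - stabY n p) a b ∈ I) ∧ (∀ a b, (y * x - stabY n q) a b ∈ I)) ↔ EqK d I p q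
  rw [tr_RoeP]
  rfl

theorem eqK0_iff' {Y : Type} (d : Y → Y → ℕ) (I I' : Set (OpY Y)) (p p' q q' : OpY Y)
    (hI : I = I') (hp : p = p') (hq : q = q') : EqK0 d I p q ↔ EqK d I' p' q' := by
  subst hI hp hq
  exact eqK0_iff d I p q

theorem result :
    Nonempty Tower ∧ ∀ T : Tower,
      -- the components of the graph `gY T` are the `T_n`, which are finite
      (∀ x y : Yt T, (gY T).Reachable x y ↔ x.1.2 = y.1.2) ∧
      (∀ n : ℕ, {x : Yt T | x.1.2 = n}.Finite) ∧
      -- `Y` is a metric space of bounded geometry, `C*(Y)` an algebra, the ghosts are an ideal which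
      -- contains the compact operators
      S.BddGeo (dY T) ∧ S.Ideals (dY T) ∧
      -- the projections `e a` are in `C*(Y)`
      (∀ a : ℕ → ℕ, e T a ∈ S.Roe (dY T) ∧ e T a * e T a = e T a ∧
        ∀ ξ p, S.co (S.ap (e T a) ξ) p =
          if ∃ n j, j < a n ∧ p = (root T n, j) then S.co ξ p else 0) ∧
      -- `[e a] = 0` in `K_0(C*(Y)/Ghost)`
      (∀ a : ℕ → ℕ, EqK0 (dY T) (S.Ghost (dY T)) (e T a) 0) ∧
      -- `[e a] = [e b]` in `K_0(C*(Y)/K)` if and only if `a n = b n` for all large `n`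
      ∀ a b : ℕ → ℕ,
        EqK0 (dY T) (S.Cpt (Yt T)) (e T a) (e T b) ↔ ∀ᶠ n in atTop, a n = b n := by
  refine ⟨all_XTow, fun T => ⟨fin_conn T, fin_col T, fin_geo T, fin_ideals T,
    fun a => ⟨fin_e_Roe T a, fin_e_idem T a, sproj_apply _⟩, fun a => ?_, fun a b => ?_⟩⟩
  · obtain ⟨E⟩ := pr_YEmb T
    exact (eqK0_iff' (dY T) (S.Ghost (dY T)) (GhY (dY T)) (e T a) (eF T a) 0 0 (tr_Gh (dY T))
      (fin_e T a) rfl).mpr (all_YKillF T E a)
  · exact (eqK0_iff' (dY T) (S.Cpt (Yt T)) (CpY (Yt T)) (e T a) (eF T a) (e T b) (eF T b) rfl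
      (fin_e T a) (fin_e T b)).trans ⟨fun h => all_YInfF T a b h, fun h => all_YFinF T a b h⟩

end Pool.Agent.Results.MP_1ddc88_an.SpacesOfGraphs
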